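import Pool.Agent.H.MP_fcea8d.B

namespace Pool.Agent.Results.MP_fcea8d_gt.Yes

open Set Filter Topology

/-- `r` is a retractional skeleton on `K` indexed by the partially ordered set `G`. -/
structure IsSkeleton {K : Type*} [TopologicalSpace K] {G : Type*} [PartialOrder G]
    (r : G → K → K) : Prop where
  ne : Nonempty G
  dir : ∀ s t : G, ∃ u, s ≤ u ∧ t ≤ u
  sup : ∀ s : ℕ → G, Monotone s → ∃ t, IsLUB (range s) t
  cont : ∀ s, Continuous (r s)
  idem : ∀ s, r s ∘ r s = r s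
  metr : ∀ s, TopologicalSpace.MetrizableSpace (range (r s))
  comm : ∀ s t, s ≤ t → r s = r s ∘ r t ∧ r s = r t ∘ r s
  lim : ∀ s : ℕ → G, Monotone s → ∀ t, IsLUB (range s) t →
    ∀ x, Tendsto (fun n => r (s n) x) atTop (𝓝 (r t x))
  conv : ∀ x, Tendsto (fun s => r s x) atTop (𝓝 x)

theorem result {K : Type*} [TopologicalSpace K] [CompactSpace K] [T2Space K]
    {G : Type*} [PartialOrder G] (r : G → K → K) (h : IsSkeleton r) :
    ∃ (F : Set (Set K)) (ρ : F → K → K),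
      (∀ A ∈ F, IsCompact A) ∧
      (∀ s : ℕ → F, Monotone s →
        ∃ t : F, (t : Set K) = closure (⋃ n, (s n : Set K)) ∧ IsLUB (range s) t) ∧
      (∀ A : F, range (ρ A) = (A : Set K)) ∧
      IsSkeleton ρ ∧ (⋃ A, range (ρ A)) = ⋃ s, range (r s) := by
  obtain ⟨F, ρ, h1, h2, h3, h4, h5⟩ := Pool.Agent.H.MP_fcea8d.main (r := r)
    ⟨h.ne, h.dir, h.sup, h.cont, h.idem, h.metr, h.comm, h.lim, h.conv⟩
  exact ⟨F, ρ, h1, h2, h3,
    ⟨h4.ne, h4.dir, h4.sup, h4.cont, h4.idem, h4.metr, h4.comm, h4.lim, h4.conv⟩, h5⟩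

end Pool.Agent.Results.MP_fcea8d_gt.Yes
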